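import Pool.Agent.H51.TD.BLW
import Pool.Agent.H51.TD.EMN
import Pool.Agent.H51.TD.AR6

/-!
# MP_19db4f_an, Q1: negative answer

There is a nonwandering homeomorphism `f` of the torus, isotopic to the identity, whose rotation set
has nonempty interior, and an open set `W` meeting the essential set `Ess f` such that `W ∩ Ess f`
contains no periodic point of `f`.
-/

set_option autoImplicit false

open Topology Filter Set Function

namespace Pool.Agent.Results.MP_19db4f_an.PeriodicNotDense

open TorD

theorem result : ∃ f : T2 ≃ₜ T2, IsotopicId f ∧ Nonwandering f ∧ (∃ F, IsLift F f) ∧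
    (∀ F, IsLift F f → (interior (rotSet F)).Nonempty) ∧
    ∃ W : Set T2, IsOpen W ∧ (W ∩ Ess f).Nonempty ∧
      ∀ x ∈ W ∩ Ess f, x ∉ Function.periodicPts f := by
  obtain ⟨ι, hι, S, hφ, _⟩ := sys_ph
  obtain ⟨f, g, B⟩ := S.blow
  rw [hφ] at B
  exact ess_main B fun x => by
    have h := S.dφ.rat x
    rwa [hφ] at h

end Pool.Agent.Results.MP_19db4f_an.PeriodicNotDense
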